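import Mathlib.Order.Closure
import Mathlib.Data.Set.Finite.Basic
import Mathlib.Data.Set.Finite.Lattice
import Mathlib.Order.Bounds.Basic
import Mathlib.Order.Minimal
import Mathlib.Tactic.Tauto

/-!
# MP_df2171_co: a closure space of semilattice type in which the clopen sets form a lattice, although
some regular closed set is not clopen

A closure space is a set `P` with a closure operator `φ` on `Set P`, `φ ∅ = ∅`. The answer to Q1 is
negative: there is a closure space `(P, φ)` of semilattice type such that `Clop (P, φ)` is a lattice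
and `Clop (P, φ) ≠ Reg (P, φ)`.

The space has five points `p n, s i n, m i n` (`i` in `{0, 1}`) on every level `n = 0, 1, 2, …`, and
`φ` is generated by the coverings `{s i n, m i n} → p n`, `{s i (n+1), m (1-i) n} → s i n` and
`{m i (n+1), m (1-i) n} → s i n`. The order descends with the level; it is not well-founded.
-/

set_option autoImplicit false

namespace Pool.Agent.Results.MP_df2171_co.ClopLatticeNotReg

section Defs
variable {P : Type}

/-- The closed sets. -/
def Closed (φ : ClosureOperator (Set P)) (a : Set P) : Prop := φ a = a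

/-- The open sets are the complements of the closed sets. -/
def Open (φ : ClosureOperator (Set P)) (a : Set P) : Prop := Closed φ aᶜ

/-- The interior of a set. -/
def inter (φ : ClosureOperator (Set P)) (a : Set P) : Set P := (φ aᶜ)ᶜ

/-- The set of the clopen sets. -/
def Clop (φ : ClosureOperator (Set P)) : Set (Set P) := {a | Closed φ a ∧ Open φ a}

/-- The set of the regular closed sets. -/
def Reg (φ : ClosureOperator (Set P)) : Set (Set P) := {a | a = φ (inter φ a)}

/-- `φ x` is the union of the `φ y`, `y ⊆ x` finite. -/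
def Algebraic (φ : ClosureOperator (Set P)) : Prop :=
  ∀ x : Set P, φ x = ⋃ y ∈ {y : Set P | y ⊆ x ∧ y.Finite}, φ y

/-- `x` is a minimal covering of `p`. -/
def MinCovering (φ : ClosureOperator (Set P)) (x : Set P) (p : P) : Prop :=
  Minimal (fun y : Set P => p ∈ φ y) x

/-- Closure spaces of semilattice type: `φ ∅ = ∅`, `φ` is algebraic, and for some partial order on
`P` every minimal covering of a point `p` has the join `p`. -/
def SemilatticeType (φ : ClosureOperator (Set P)) : Prop :=
  φ ∅ = ∅ ∧ Algebraic φ ∧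
    ∃ o : PartialOrder P, ∀ (x : Set P) (p : P), MinCovering φ x p → @IsLUB P o.toLE x p

/-- A family of sets, ordered by inclusion, is a lattice: any two members have a join and a meet in
the family. -/
def IsLatticeFamily (S : Set (Set P)) : Prop :=
  ∀ a b : S, (∃ c : S, IsLUB {a, b} c) ∧ (∃ c : S, IsGLB {a, b} c)

end Defs

/-- The points of the space. -/
inductive Pt : Type
  | p (n : ℕ)
  | s (i : Bool) (n : ℕ)
  | m (i : Bool) (n : ℕ)

open Pt

/-- The level of a point. -/
def lev : Pt → ℕ
  | p n => n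
  | s _ n => n
  | m _ n => n

/-- The closure of `X`. -/
inductive Cl (X : Set Pt) : Pt → Prop
  | base {q : Pt} : q ∈ X → Cl X q
  | top (i : Bool) (n : ℕ) : Cl X (s i n) → Cl X (m i n) → Cl X (p n)
  | ss (i : Bool) (n : ℕ) : Cl X (s i (n + 1)) → Cl X (m (!i) n) → Cl X (s i n)
  | sm (i : Bool) (n : ℕ) : Cl X (m i (n + 1)) → Cl X (m (!i) n) → Cl X (s i n)

theorem Cl.mono {X Y : Set Pt} (h : X ⊆ Y) {q : Pt} (hq : Cl X q) : Cl Y q := by
  induction hq with
  | base h1 => exact Cl.base (h h1)
  | top i n _ _ h1 h2 => exact Cl.top i n h1 h2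
  | ss i n _ _ h1 h2 => exact Cl.ss i n h1 h2
  | sm i n _ _ h1 h2 => exact Cl.sm i n h1 h2

theorem Cl.idem {X : Set Pt} {q : Pt} (hq : Cl {r | Cl X r} q) : Cl X q := by
  induction hq with
  | base h1 => exact h1
  | top i n _ _ h1 h2 => exact Cl.top i n h1 h2
  | ss i n _ _ h1 h2 => exact Cl.ss i n h1 h2
  | sm i n _ _ h1 h2 => exact Cl.sm i n h1 h2

/-- The closure operator. -/
def phi : ClosureOperator (Set Pt) :=
  ClosureOperator.mk' (fun X => {q | Cl X q}) (fun _ _ h _ hq => Cl.mono h hq)
    (fun _ _ hq => Cl.base hq) (fun _ _ hq => Cl.idem hq)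

theorem mem_phi (X : Set Pt) (q : Pt) : q ∈ phi X ↔ Cl X q := Iff.rfl

/-- Closed under the generating coverings. -/
def IsCl (A : Set Pt) : Prop :=
  (∀ i n, s i n ∈ A → m i n ∈ A → p n ∈ A) ∧
  (∀ i n, s i (n + 1) ∈ A → m (!i) n ∈ A → s i n ∈ A) ∧
  (∀ i n, m i (n + 1) ∈ A → m (!i) n ∈ A → s i n ∈ A)

theorem cl_sub {X A : Set Pt} (hA : IsCl A) (h : X ⊆ A) {q : Pt} (hq : Cl X q) : q ∈ A := by
  induction hq with
  | base h1 => exact h h1
  | top i n _ _ h1 h2 => exact hA.1 i n h1 h2
  | ss i n _ _ h1 h2 => exact hA.2.1 i n h1 h2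
  | sm i n _ _ h1 h2 => exact hA.2.2 i n h1 h2

theorem closed_iff (A : Set Pt) : Closed phi A ↔ IsCl A := by
  constructor
  · intro h
    have h' : ∀ q, Cl A q → q ∈ A := fun q hq => by
      have : q ∈ phi A := hq
      rwa [h] at this
    exact ⟨fun i n h1 h2 => h' _ (Cl.top i n (Cl.base h1) (Cl.base h2)),
      fun i n h1 h2 => h' _ (Cl.ss i n (Cl.base h1) (Cl.base h2)),
      fun i n h1 h2 => h' _ (Cl.sm i n (Cl.base h1) (Cl.base h2))⟩
  · intro h
    refine Set.Subset.antisymm (fun q hq => cl_sub h (subset_refl A) hq) (fun q hq => Cl.base hq)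

theorem isCl_phi (X : Set Pt) : IsCl (phi X) :=
  ⟨fun i n h1 h2 => Cl.top i n h1 h2, fun i n h1 h2 => Cl.ss i n h1 h2,
    fun i n h1 h2 => Cl.sm i n h1 h2⟩

/-! ### Semilattice type -/

/-- The order. -/
def le' (q : Pt) : Pt → Prop
  | p n => n ≤ lev q
  | s i n => q = s i n ∨ q = m (!i) n ∨ n + 1 ≤ lev q
  | m i n => q = m i n

theorem le'_lev {q r : Pt} (h : le' q r) : lev r ≤ lev q := by
  cases r with
  | p n => exact h
  | s i n =>
    rcases h with h | h | h
    · rw [h]
    · rw [h]; exact le_refl _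
    · exact le_trans (Nat.le_succ _) h
  | m i n => rw [show q = m i n from h]

theorem le'_trans {q r t : Pt} (h1 : le' q r) (h2 : le' r t) : le' q t := by
  cases t with
  | p n => exact le_trans h2 (le'_lev h1)
  | s i n =>
    rcases h2 with h | h | h
    · rw [h] at h1; exact h1
    · rw [h] at h1; exact Or.inr (Or.inl h1)
    · exact Or.inr (Or.inr (le_trans h (le'_lev h1)))
  | m i n =>
    rw [show r = m i n from h2] at h1; exact h1

theorem le'_antisymm {q r : Pt} (h1 : le' q r) (h2 : le' r q) : q = r := by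
  have e : lev q = lev r := le_antisymm (le'_lev h2) (le'_lev h1)
  cases r with
  | p n =>
    cases q with
    | p k => simp only [lev] at e; rw [e]
    | s i k =>
      rcases h2 with h | h | h
      · exact absurd h (by simp)
      · exact absurd h (by simp)
      · simp only [lev] at e h; omega
    | m i k => exact absurd (show p n = m i k from h2) (by simp)
  | s i n =>
    rcases h1 with h | h | h
    · exact h
    · subst h
      exact absurd (show s i n = m (!i) n from h2) (by simp)
    · simp only [lev] at e h; omega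
  | m i n => exact h1

/-- The partial order on the points. -/
@[reducible] def ord : PartialOrder Pt where
  le := le'
  le_refl q := by
    cases q with
    | p n => exact le_refl n
    | s i n => exact Or.inl rfl
    | m i n => exact rfl
  le_trans _ _ _ := le'_trans
  le_antisymm _ _ := le'_antisymm

theorem join_top {i : Bool} {n : ℕ} {u : Pt} (h1 : le' (s i n) u) (h2 : le' (m i n) u) :
    le' (p n) u := by
  cases u with
  | p k => exact h1
  | s j k =>
    refine Or.inr (Or.inr ?_)
    rcases h1 with h1 | h1 | h1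
    · rcases h2 with h2 | h2 | h2
      · exact absurd h2 (by simp)
      · simp only [Pt.s.injEq, Pt.m.injEq] at h1 h2
        exact absurd (h1.1.symm.trans h2.1) (by simp)
      · exact h2
    · exact absurd h1 (by simp)
    · exact h1
  | m j k => exact absurd (show s i n = m j k from h1) (by simp)

theorem join_ss {i : Bool} {n : ℕ} {u : Pt} (h1 : le' (s i (n + 1)) u) (h2 : le' (m (!i) n) u) :
    le' (s i n) u := by
  cases u with
  | p k => exact h2
  | s j k =>
    rcases h2 with h2 | h2 | h2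
    · exact absurd h2 (by simp)
    · simp only [Pt.m.injEq] at h2
      have hij : i = j := by
        have := h2.1
        revert this; cases i <;> cases j <;> simp
      left; rw [hij, h2.2]
    · exact Or.inr (Or.inr h2)
  | m j k => exact absurd (show s i (n + 1) = m j k from h1) (by simp)

theorem join_sm {i : Bool} {n : ℕ} {u : Pt} (h1 : le' (m i (n + 1)) u) (h2 : le' (m (!i) n) u) :
    le' (s i n) u := by
  cases u with
  | p k => exact h2
  | s j k =>
    rcases h2 with h2 | h2 | h2
    · exact absurd h2 (by simp)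
    · simp only [Pt.m.injEq] at h2
      have hij : i = j := by
        have := h2.1
        revert this; cases i <;> cases j <;> simp
      left; rw [hij, h2.2]
    · exact Or.inr (Or.inr h2)
  | m j k =>
    have e1 : m i (n + 1) = m j k := h1
    have e2 : m (!i) n = m j k := h2
    simp only [Pt.m.injEq] at e1 e2
    omega

/-- Every upper bound of `X` is an upper bound of the closure of `X`. -/
theorem cl_upper {X : Set Pt} {q : Pt} (hq : Cl X q) (u : Pt) (hu : ∀ x ∈ X, le' x u) :
    le' q u := by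
  induction hq with
  | base h1 => exact hu _ h1
  | top i n _ _ h1 h2 => exact join_top h1 h2
  | ss i n _ _ h1 h2 => exact join_ss h1 h2
  | sm i n _ _ h1 h2 => exact join_sm h1 h2

/-- Only the points of `X` below `q` are needed. -/
theorem cl_below {X : Set Pt} {q : Pt} (hq : Cl X q) : Cl (X ∩ {x | le' x q}) q := by
  have mono : ∀ {r t : Pt}, le' r t → Cl (X ∩ {x | le' x r}) r → Cl (X ∩ {x | le' x t}) r :=
    fun h hr => Cl.mono (fun x hx => And.intro hx.1 (le'_trans hx.2 h)) hr
  induction hq with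
  | @base q h1 => exact Cl.base ⟨h1, ord.le_refl q⟩
  | top i n _ _ h1 h2 =>
    exact Cl.top i n (mono (le_refl n) h1) (mono (le_refl n) h2)
  | ss i n _ _ h1 h2 =>
    exact Cl.ss i n (mono (Or.inr (Or.inr (le_refl _))) h1) (mono (Or.inr (Or.inl rfl)) h2)
  | sm i n _ _ h1 h2 =>
    exact Cl.sm i n (mono (Or.inr (Or.inr (le_refl _))) h1) (mono (Or.inr (Or.inl rfl)) h2)

theorem cl_finite {X : Set Pt} {q : Pt} (hq : Cl X q) : ∃ Y : Set Pt, Y ⊆ X ∧ Y.Finite ∧ Cl Y q := by
  have comb : ∀ {r t v : Pt}, (∀ Z : Set Pt, Cl Z r → Cl Z t → Cl Z v) →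
      (∃ Y : Set Pt, Y ⊆ X ∧ Y.Finite ∧ Cl Y r) → (∃ Y : Set Pt, Y ⊆ X ∧ Y.Finite ∧ Cl Y t) →
      ∃ Y : Set Pt, Y ⊆ X ∧ Y.Finite ∧ Cl Y v := by
    rintro r t v h ⟨Y, h1, h2, h3⟩ ⟨Z, g1, g2, g3⟩
    exact ⟨Y ∪ Z, Set.union_subset h1 g1, h2.union g2,
      h _ (Cl.mono Set.subset_union_left h3) (Cl.mono Set.subset_union_right g3)⟩
  induction hq with
  | @base q h1 => exact ⟨{q}, by simpa using h1, Set.finite_singleton q, Cl.base rfl⟩
  | top i n _ _ h1 h2 => exact comb (fun Z => Cl.top i n) h1 h2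
  | ss i n _ _ h1 h2 => exact comb (fun Z => Cl.ss i n) h1 h2
  | sm i n _ _ h1 h2 => exact comb (fun Z => Cl.sm i n) h1 h2

theorem semilatticeType : SemilatticeType phi := by
  refine ⟨?_, ?_, ord, ?_⟩
  · have h : IsCl (∅ : Set Pt) := ⟨fun _ _ h _ => h, fun _ _ h _ => h.elim, fun _ _ h _ => h.elim⟩
    exact (closed_iff ∅).2 h
  · intro x
    ext q
    simp only [Set.mem_iUnion, exists_prop]
    show Cl x q ↔ ∃ Y : Set Pt, (Y ⊆ x ∧ Y.Finite) ∧ Cl Y q
    constructor
    · intro hq
      obtain ⟨Y, h1, h2, h3⟩ := cl_finite hq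
      exact ⟨Y, ⟨h1, h2⟩, h3⟩
    · rintro ⟨Y, ⟨h1, _⟩, h3⟩
      exact Cl.mono h1 h3
  · intro x q hx
    have h1 : Cl x q := hx.1
    have h2 : x ⊆ x ∩ {y | le' y q} := hx.2 (cl_below h1) Set.inter_subset_left
    exact ⟨fun y hy => (h2 hy).2, fun u hu => cl_upper h1 u fun y hy => hu hy⟩

/-! ### The clopen sets form a lattice -/

theorem clop_iff (A : Set Pt) : A ∈ Clop phi ↔ IsCl A ∧ IsCl Aᶜ := by
  unfold Clop Open
  show (Closed phi A ∧ Closed phi Aᶜ) ↔ _
  rw [closed_iff, closed_iff]

theorem clop_compl {A : Set Pt} (h : A ∈ Clop phi) : Aᶜ ∈ Clop phi := by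
  rw [clop_iff] at h ⊢
  rw [compl_compl]
  exact ⟨h.2, h.1⟩

/-- The key step: the union of two clopen sets has a clopen closure. -/
theorem key {a b : Set Pt} (ha : a ∈ Clop phi) (hb : b ∈ Clop phi) : phi (a ∪ b) ∈ Clop phi := by
  rw [clop_iff] at ha hb
  rw [clop_iff]
  have hsub : a ∪ b ⊆ phi (a ∪ b) := fun q hq => Cl.base hq
  have he := isCl_phi (a ∪ b)
  refine ⟨he, ?_⟩
  generalize hE : phi (a ∪ b) = e at *
  have hae : a ⊆ e := fun q hq => hsub (Or.inl hq)
  have hbe : b ⊆ e := fun q hq => hsub (Or.inr hq)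
  have inv : ∀ q, q ∈ e → Cl (a ∪ b) q := fun q hq => by rw [← hE] at hq; exact hq
  -- points of type `s`
  have hs : ∀ c : Set Pt, (IsCl c ∧ IsCl cᶜ) → c ⊆ e → ∀ i n, m (!i) n ∉ e → s i n ∈ c →
      s i (n + 1) ∈ c ∧ m i (n + 1) ∈ c := by
    intro c hc hce i n h1 h2
    constructor
    · by_contra h3
      exact hc.2.2.1 i n h3 (fun h => h1 (hce h)) h2
    · by_contra h3
      exact hc.2.2.2 i n h3 (fun h => h1 (hce h)) h2
  have rule2 : ∀ i n, s i n ∈ e → m (!i) n ∉ e → s i n ∈ a ∨ s i n ∈ b := by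
    intro i n h1 h2
    have h3 := inv _ h1
    cases h3 with
    | base h => exact h
    | ss _ _ _ h => exact absurd (by rw [← hE]; exact h) h2
    | sm _ _ _ h => exact absurd (by rw [← hE]; exact h) h2
  refine ⟨?_, ?_, ?_⟩
  · intro i n h1 h2 h3
    have h4 := inv _ h3
    cases h4 with
    | base h =>
      rcases h with h | h
      · exact ha.2.1 i n (fun g => h1 (hae g)) (fun g => h2 (hae g)) h
      · exact hb.2.1 i n (fun g => h1 (hbe g)) (fun g => h2 (hbe g)) h
    | top j _ g1 g2 =>
      have g1' : s j n ∈ e := by rw [← hE]; exact g1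
      have g2' : m j n ∈ e := by rw [← hE]; exact g2
      have hij : i = !j := by
        by_contra hne
        have : i = j := by revert hne; cases i <;> cases j <;> simp
        rw [this] at h1
        exact h1 g1'
      subst hij
      -- a clopen set inside `e` which contains `s j n`
      have fin : ∀ c : Set Pt, (IsCl c ∧ IsCl cᶜ) → c ⊆ e → s j n ∉ c := by
        intro c hc hce hsc
        obtain ⟨k1, k2⟩ := hs c hc hce j n h2 hsc
        have k3 : p (n + 1) ∈ c := hc.1.1 j (n + 1) k1 k2
        have k4 : s (!j) (n + 1) ∈ c ∨ m (!j) (n + 1) ∈ c := by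
          by_contra hcon
          rw [not_or] at hcon
          exact hc.2.1 (!j) (n + 1) hcon.1 hcon.2 k3
        have g2'' : m (!(!j)) n ∈ e := by rw [Bool.not_not]; exact g2'
        rcases k4 with k4 | k4
        · exact h1 (he.2.1 (!j) n (hce k4) g2'')
        · exact h1 (he.2.2 (!j) n (hce k4) g2'')
      rcases rule2 j n g1' h2 with h | h
      · exact fin a ha hae h
      · exact fin b hb hbe h
  · intro i n h1 h2 h3
    rcases rule2 i n h3 h2 with h | h
    · exact h1 (hae (hs a ha hae i n h2 h).1)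
    · exact h1 (hbe (hs b hb hbe i n h2 h).1)
  · intro i n h1 h2 h3
    rcases rule2 i n h3 h2 with h | h
    · exact h1 (hae (hs a ha hae i n h2 h).2)
    · exact h1 (hbe (hs b hb hbe i n h2 h).2)

theorem clop_lattice : IsLatticeFamily (Clop phi) := by
  rintro ⟨a, ha⟩ ⟨b, hb⟩
  constructor
  · refine ⟨⟨phi (a ∪ b), key ha hb⟩, ?_, ?_⟩
    · rintro c (rfl | rfl)
      · exact fun q hq => Cl.base (Or.inl hq)
      · exact fun q hq => Cl.base (Or.inr hq)
    · rintro ⟨c, hc⟩ h
      have h1 : a ⊆ c := h (Or.inl rfl)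
      have h2 : b ⊆ c := h (Or.inr rfl)
      exact fun q hq => cl_sub ((clop_iff c).1 hc).1 (Set.union_subset h1 h2) hq
  · have hk := clop_compl (key (clop_compl ha) (clop_compl hb))
    refine ⟨⟨(phi (aᶜ ∪ bᶜ))ᶜ, hk⟩, ?_, ?_⟩
    · rintro c (rfl | rfl)
      · intro q hq
        by_contra h
        exact hq (Cl.base (Or.inl h))
      · intro q hq
        by_contra h
        exact hq (Cl.base (Or.inr h))
    · rintro ⟨c, hc⟩ h
      have h1 : c ⊆ a := h (Or.inl rfl)
      have h2 : c ⊆ b := h (Or.inr rfl)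
      have h3 : aᶜ ∪ bᶜ ⊆ cᶜ := Set.union_subset (Set.compl_subset_compl.2 h1)
        (Set.compl_subset_compl.2 h2)
      intro q hq hq2
      exact cl_sub ((clop_iff c).1 hc).2 h3 hq2 hq

/-! ### A regular closed set which is not clopen -/

/-- The points `s i n` and `m i n`, for all `n`. -/
def T (i : Bool) : Set Pt := {q | ∃ n, q = s i n ∨ q = m i n}

/-- The points `s i n`, `m i n` and `p n`, for all `n`. -/
def U (i : Bool) : Set Pt := {q | ∃ n, q = s i n ∨ q = m i n ∨ q = p n}

theorem phi_T (i : Bool) : phi (T i) = U i := by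
  apply Set.Subset.antisymm
  · intro q hq
    refine cl_sub (A := U i) ⟨?_, ?_, ?_⟩ ?_ hq
    · exact fun j n _ _ => ⟨n, Or.inr (Or.inr rfl)⟩
    · rintro j n ⟨k, h1⟩ ⟨l, h2⟩
      simp only [Pt.s.injEq, Pt.m.injEq, reduceCtorEq, or_false, false_or] at h1 h2
      exact absurd (h1.1.trans h2.1.symm) (by simp)
    · rintro j n ⟨k, h1⟩ ⟨l, h2⟩
      simp only [Pt.m.injEq, reduceCtorEq, or_false, false_or] at h1 h2
      exact absurd (h1.1.trans h2.1.symm) (by simp)
    · rintro q ⟨n, h | h⟩
      · exact ⟨n, Or.inl h⟩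
      · exact ⟨n, Or.inr (Or.inl h)⟩
  · rintro q ⟨n, h | h | h⟩
    · rw [h]; exact Cl.base ⟨n, Or.inl rfl⟩
    · rw [h]; exact Cl.base ⟨n, Or.inr rfl⟩
    · rw [h]; exact Cl.top i n (Cl.base ⟨n, Or.inl rfl⟩) (Cl.base ⟨n, Or.inr rfl⟩)

theorem U_compl (i : Bool) : (U i)ᶜ = T (!i) := by
  ext q
  cases q with
  | p n => simp [U, T]
  | s j n => cases i <;> cases j <;> simp [U, T]
  | m j n => cases i <;> cases j <;> simp [U, T]

theorem U_reg : U false ∈ Reg phi := by
  show U false = phi (phi (U false)ᶜ)ᶜ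
  rw [U_compl, phi_T, U_compl]
  exact (phi_T false).symm

theorem U_not_clop : U false ∉ Clop phi := by
  rintro ⟨_, h⟩
  unfold Open Closed at h
  rw [U_compl, phi_T] at h
  have h1 : p 0 ∈ U (!false) := ⟨0, Or.inr (Or.inr rfl)⟩
  rw [h] at h1
  obtain ⟨n, h2 | h2⟩ := h1 <;> exact absurd h2 (by simp)

/-- **Negative answer to Q1.** There is a closure space of semilattice type in which the clopen sets,
ordered by inclusion, form a lattice, although not every regular closed set is clopen. -/
theorem result : ∃ (P : Type) (φ : ClosureOperator (Set P)), SemilatticeType φ ∧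
    IsLatticeFamily (Clop φ) ∧ Clop φ ≠ Reg φ := by
  refine ⟨Pt, phi, semilatticeType, clop_lattice, fun h => ?_⟩
  exact U_not_clop (h ▸ U_reg)

end Pool.Agent.Results.MP_df2171_co.ClopLatticeNotReg
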